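import Mathlib
import Pool.Agent.Y224.OD.Stm

set_option autoImplicit false

/-! Project OD: the eigenvalues of the elements of some open subgroup are congruent to one. -/

namespace Pool.Agent.Y799.OD

open Module Polynomial TensorProduct

section

variable {ℓ : ℕ} [Fact ℓ.Prime] {n : ℕ}

/-- matrices which are congruent to one modulo `ℓ ^ 2` -/
def Cg (A : Matrix (Fin n) (Fin n) ℚ_[ℓ]) : Prop :=
  ∃ M : Matrix (Fin n) (Fin n) ℤ_[ℓ],
    A = 1 + ((ℓ : ℚ_[ℓ]) ^ 2) • (algebraMap ℤ_[ℓ] ℚ_[ℓ]).mapMatrix M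

theorem cg_one : Cg (1 : Matrix (Fin n) (Fin n) ℚ_[ℓ]) :=
  ⟨0, by rw [map_zero, smul_zero, add_zero]⟩

theorem cg_mul {A B : Matrix (Fin n) (Fin n) ℚ_[ℓ]} (hA : Cg A) (hB : Cg B) : Cg (A * B) := by
  obtain ⟨M, rfl⟩ := hA
  obtain ⟨N, rfl⟩ := hB
  refine ⟨M + N + ((ℓ : ℤ_[ℓ]) ^ 2) • (M * N), ?_⟩
  have h1 : (algebraMap ℤ_[ℓ] ℚ_[ℓ]).mapMatrix (((ℓ : ℤ_[ℓ]) ^ 2) • (M * N)) =
      ((ℓ : ℚ_[ℓ]) ^ 2) • ((algebraMap ℤ_[ℓ] ℚ_[ℓ]).mapMatrix M *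
        (algebraMap ℤ_[ℓ] ℚ_[ℓ]).mapMatrix N) := by
    rw [← map_mul]
    ext i j
    show algebraMap ℤ_[ℓ] ℚ_[ℓ] ((ℓ : ℤ_[ℓ]) ^ 2 * (M * N) i j) =
      (ℓ : ℚ_[ℓ]) ^ 2 * algebraMap ℤ_[ℓ] ℚ_[ℓ] ((M * N) i j)
    rw [map_mul, map_pow, map_natCast]
  rw [map_add, map_add, h1]
  simp only [add_mul, mul_add, one_mul, mul_one, smul_add, Matrix.smul_mul, Matrix.mul_smul]
  abel

theorem norm_ell : ‖(ℓ : ℚ_[ℓ]) ^ 2‖ = ((ℓ : ℝ) ^ 2)⁻¹ := by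
  rw [norm_pow, Padic.norm_p, inv_pow]

theorem ell_ne : (ℓ : ℚ_[ℓ]) ^ 2 ≠ 0 := by
  have h : (ℓ : ℚ_[ℓ]) ≠ 0 := by
    exact_mod_cast (Fact.out : ℓ.Prime).ne_zero
  exact pow_ne_zero _ h

theorem cg_iff (A : Matrix (Fin n) (Fin n) ℚ_[ℓ]) :
    Cg A ↔ ∀ i j, ‖A i j - (1 : Matrix (Fin n) (Fin n) ℚ_[ℓ]) i j‖ ≤ ((ℓ : ℝ) ^ 2)⁻¹ := by
  constructor
  · rintro ⟨M, rfl⟩ i j
    rw [Matrix.add_apply, add_sub_cancel_left, Matrix.smul_apply, smul_eq_mul, norm_mul, norm_ell]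
    have h : ‖((algebraMap ℤ_[ℓ] ℚ_[ℓ]).mapMatrix M) i j‖ ≤ 1 := (M i j).2
    have h0 : (0 : ℝ) ≤ ((ℓ : ℝ) ^ 2)⁻¹ := by positivity
    nlinarith
  · intro h
    have hb : ∀ i j, ‖(A i j - (1 : Matrix (Fin n) (Fin n) ℚ_[ℓ]) i j) / (ℓ : ℚ_[ℓ]) ^ 2‖ ≤ 1 := by
      intro i j
      rw [norm_div, norm_ell, div_le_iff₀ (by
        have : (0 : ℝ) < ℓ := by exact_mod_cast (Fact.out : ℓ.Prime).pos
        positivity), one_mul]
      exact h i j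
    refine ⟨Matrix.of fun i j => ⟨_, hb i j⟩, ?_⟩
    ext i j
    rw [Matrix.add_apply, Matrix.smul_apply, smul_eq_mul]
    show A i j = (1 : Matrix (Fin n) (Fin n) ℚ_[ℓ]) i j + (ℓ : ℚ_[ℓ]) ^ 2 *
      ((A i j - (1 : Matrix (Fin n) (Fin n) ℚ_[ℓ]) i j) / (ℓ : ℚ_[ℓ]) ^ 2)
    rw [mul_div_cancel₀ _ ell_ne]
    ring

end

theorem t_eig : Pool.Agent.Y224.OD.S_EIG := by
  intro ℓ _ V Γ _ _ _ _ _ _ _ ρ hc
  obtain ⟨n, ⟨b⟩⟩ : ∃ n : ℕ, Nonempty (Basis (Fin n) ℚ_[ℓ] V) :=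
    ⟨_, ⟨Module.finBasis ℚ_[ℓ] V⟩⟩
  let A : Γ → Matrix (Fin n) (Fin n) ℚ_[ℓ] := fun g => LinearMap.toMatrix b b (ρ g)
  have hA1 : A 1 = 1 := by
    show LinearMap.toMatrix b b (ρ 1) = 1
    rw [map_one]
    exact LinearMap.toMatrix_one b
  have hAm : ∀ g h, A (g * h) = A g * A h := by
    intro g h
    show LinearMap.toMatrix b b (ρ (g * h)) = _
    rw [map_mul]
    exact LinearMap.toMatrix_mul b _ _
  have hcont : ∀ i j, Continuous fun g => A g i j := by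
    intro i j
    have h := hc (b j) (b.coord i)
    convert h using 2 with g
    show LinearMap.toMatrix b b (ρ g) i j = _
    rw [LinearMap.toMatrix_apply]
    rfl
  let Δ : Subgroup Γ :=
    { carrier := {g | Cg (A g) ∧ Cg (A g⁻¹)}
      mul_mem' := by
        rintro g h ⟨h1, h2⟩ ⟨h3, h4⟩
        refine ⟨?_, ?_⟩
        · rw [hAm]; exact cg_mul h1 h3
        · rw [mul_inv_rev, hAm]; exact cg_mul h4 h2
      one_mem' := by
        refine ⟨?_, ?_⟩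
        · rw [hA1]; exact cg_one
        · rw [inv_one, hA1]; exact cg_one
      inv_mem' := by
        rintro g ⟨h1, h2⟩
        refine ⟨h2, ?_⟩
        rw [inv_inv]; exact h1 }
  have hopen1 : IsOpen {g | Cg (A g)} := by
    have h1 : {g | Cg (A g)} = ⋂ i, ⋂ j, {g | ‖A g i j -
        (1 : Matrix (Fin n) (Fin n) ℚ_[ℓ]) i j‖ ≤ ((ℓ : ℝ) ^ 2)⁻¹} := by
      ext g
      simp only [Set.mem_iInter]
      exact cg_iff (A g)
    rw [h1]
    refine isOpen_iInter_of_finite fun i => isOpen_iInter_of_finite fun j => ?_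
    have h2 : IsOpen (Metric.closedBall ((1 : Matrix (Fin n) (Fin n) ℚ_[ℓ]) i j)
        (((ℓ : ℝ) ^ 2)⁻¹)) := by
      apply IsUltrametricDist.isOpen_closedBall
      have : (0 : ℝ) < ℓ := by exact_mod_cast (Fact.out : ℓ.Prime).pos
      positivity
    have h3 := h2.preimage (hcont i j)
    convert h3 using 1
    ext g
    show ‖A g i j - (1 : Matrix (Fin n) (Fin n) ℚ_[ℓ]) i j‖ ≤ ((ℓ : ℝ) ^ 2)⁻¹ ↔
      A g i j ∈ Metric.closedBall _ _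
    rw [mem_closedBall_iff_norm]
  have hopen : IsOpen (Δ : Set Γ) := by
    have h2 : (Δ : Set Γ) = {g | Cg (A g)} ∩ (fun g => g⁻¹) ⁻¹' {g | Cg (A g)} := rfl
    rw [h2]
    exact hopen1.inter (hopen1.preimage continuous_inv)
  refine ⟨Δ, hopen, ?_, ?_⟩
  · have := Subgroup.quotient_finite_of_isOpen Δ hopen
    exact Subgroup.finiteIndex_of_finite_quotient
  · rintro g ⟨⟨M, hM⟩, -⟩ K _ _ _ _ a v hv hav
    let T : V →ₗ[ℚ_[ℓ]] V := Matrix.toLin b b ((algebraMap ℤ_[ℓ] ℚ_[ℓ]).mapMatrix M)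
    have hρ : ρ g = 1 + ((ℓ : ℚ_[ℓ]) ^ 2) • T := by
      apply (LinearMap.toMatrix b b).injective
      rw [map_add, map_smul, LinearMap.toMatrix_one, LinearMap.toMatrix_toLin]
      exact hM
    have hℓK : ((ℓ : K) ^ 2) ≠ 0 := by
      have h1 : ((ℓ : K) ^ 2) = algebraMap ℚ_[ℓ] K ((ℓ : ℚ_[ℓ]) ^ 2) := by
        rw [map_pow, map_natCast]
      rw [h1]
      exact (map_ne_zero_iff _ (algebraMap ℚ_[ℓ] K).injective).2 ell_ne
    have hbc : (ρ g).baseChange K v = v + ((ℓ : K) ^ 2) • T.baseChange K v := by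
      rw [hρ, LinearMap.baseChange_add, LinearMap.baseChange_smul, LinearMap.add_apply,
        LinearMap.smul_apply]
      congr 1
      · exact congrArg (fun f : (K ⊗[ℚ_[ℓ]] V) →ₗ[K] (K ⊗[ℚ_[ℓ]] V) => f v)
          (LinearMap.baseChange_id (R := ℚ_[ℓ]) (A := K) (M := V))
      · rw [← algebraMap_smul K ((ℓ : ℚ_[ℓ]) ^ 2), map_pow, map_natCast]
    have hTv : T.baseChange K v = ((a - 1) / (ℓ : K) ^ 2) • v := by
      have h1 : ((ℓ : K) ^ 2) • T.baseChange K v = (a - 1) • v := by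
        have h2 : v + ((ℓ : K) ^ 2) • T.baseChange K v = v + (a - 1) • v := by
          rw [← hbc, hav]
          have h3 : a • v = ((a - 1) + 1) • v := by rw [sub_add_cancel]
          rw [h3, add_smul, one_smul, add_comm]
        exact add_left_cancel h2
      rw [div_eq_inv_mul, mul_smul, ← h1, smul_smul, inv_mul_cancel₀ hℓK, one_smul]
    refine ⟨(a - 1) / (ℓ : K) ^ 2, ?_, by rw [mul_div_cancel₀ _ hℓK]; ring⟩
    have hev : Module.End.HasEigenvalue (T.baseChange K : Module.End K (K ⊗[ℚ_[ℓ]] V))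
        ((a - 1) / (ℓ : K) ^ 2) :=
      Module.End.hasEigenvalue_of_hasEigenvector
        ⟨Module.End.mem_eigenspace_iff.2 hTv, hv⟩
    rw [Module.End.hasEigenvalue_iff_isRoot_charpoly, LinearMap.charpoly_baseChange] at hev
    have hTc : T.charpoly = M.charpoly.map (algebraMap ℤ_[ℓ] ℚ_[ℓ]) := by
      rw [← LinearMap.charpoly_toMatrix T b, LinearMap.toMatrix_toLin]
      exact Matrix.charpoly_map M (algebraMap ℤ_[ℓ] ℚ_[ℓ])
    refine ⟨M.charpoly, M.charpoly_monic, ?_⟩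
    rw [hTc, Polynomial.map_map, ← IsScalarTower.algebraMap_eq, Polynomial.IsRoot.def,
      Polynomial.eval_map] at hev
    exact hev

end Pool.Agent.Y799.OD
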